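import Pool.Agent.Helper76.TB.GoalsT
import Pool.Agent.Helper18.BFT.Blk

/-!
# Project TB (MP_74f661_nt), packet BLK2: the means of the block statistics
-/

set_option autoImplicit false

open Finset Filter Topology

namespace Pool.Agent.Helper10.TB

open Pool.Agent.Helper76.TB
open Pool.Agent.Helper90.Twin (Ps Gz XX Xz)
open Pool.Agent.Helper60.BFT
open Pool.Agent.Helper18.BFT

/-! ### The dictionary -/

theorem YF_eq2 {Z ρ : ℕ → ℕ} {β : ℕ → ℕ → (ℕ → ℕ) → ℕ} {r ns : ℕ} {a b : ℕ → ℕ}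
    (hβ : AdH ρ β) (hρr : ρ r ≤ r) (hr : 3 ≤ ρ r)
    (hb : ∀ q, q ∉ lg (ρ r) (Z (r ^ 4)) → b q = a q)
    (hodd : ns % 2 = 1) (h3 : ns % 3 = (β r 3 a + 2) % 3) (t : ℕ) :
    YF 4 Z β r b (ns + 6 * t) =
      XA (Z (r ^ 4)) (tr (ρ r) (Z (r ^ 4)) ns (fun p => β r p a) b) t := by
  classical
  rw [XA_eq_ite]
  unfold YF
  have hβ' : ∀ p ≤ ρ r, β r p b = β r p a := by
    intro p hp
    apply hβ.small r p hp
    intro q hq
    apply hb
    intro h
    have := (mem_lg.1 h).2.2.2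
    omega
  have hcls : ∀ p ∈ Ps (Z (r ^ 4)), (if p ≤ r then β r p b else b p) =
      (if p ∈ lg (ρ r) (Z (r ^ 4)) then b p else β r p a) := by
    intro p hp
    by_cases hpr : p ≤ ρ r
    · have : p ∉ lg (ρ r) (Z (r ^ 4)) := by
        intro h
        have := (mem_lg.1 h).2.2.2
        omega
      rw [if_pos (hpr.trans hρr), if_neg this, hβ' p hpr]
    · have : p ∈ lg (ρ r) (Z (r ^ 4)) := by
        obtain ⟨h1, h2, h3⟩ := Helper90.Twin.mem_Ps.1 hp
        exact mem_lg.2 ⟨h1, h2, h3, by omega⟩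
      rw [if_pos this, hβ.large r p (by omega) b]
      split_ifs <;> rfl
  have hbad : ∀ p ∈ Ps (Z (r ^ 4)), bad (tr (ρ r) (Z (r ^ 4)) ns (fun p => β r p a) b) p t ↔
      (ns + 6 * t ≡ (if p ≤ r then β r p b else b p) [MOD p] ∨
        ns + 6 * t + 2 ≡ (if p ≤ r then β r p b else b p) [MOD p]) := by
    intro p hp
    have hp0 : 0 < p := by
      have := (Helper90.Twin.mem_Ps.1 hp).1
      omega
    rw [hcls p hp]
    unfold bad tr
    have e1 : 6 * t + (ns + (p - 1) * (if p ∈ lg (ρ r) (Z (r ^ 4)) then b p else β r p a)) =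
        (ns + 6 * t) + (p - 1) * (if p ∈ lg (ρ r) (Z (r ^ 4)) then b p else β r p a) := by ring
    have e2 : 6 * t + (ns + (p - 1) * (if p ∈ lg (ρ r) (Z (r ^ 4)) then b p else β r p a)) + 2 =
        (ns + 6 * t + 2) + (p - 1) * (if p ∈ lg (ρ r) (Z (r ^ 4)) then b p else β r p a) := by ring
    rw [e2, e1, dvd_tr_iff hp0, dvd_tr_iff hp0]
  refine if_congr ?_ rfl rfl
  constructor
  · rintro ⟨_, h⟩ p hp hb'
    obtain ⟨h1, h2, h3'⟩ := Helper90.Twin.mem_Ps.1 hp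
    obtain ⟨g1, g2⟩ := h p h3' (by omega) h2
    rcases (hbad p hp).1 hb' with h' | h'
    · exact g1 h'
    · exact g2 h'
  · intro h
    refine ⟨by omega, fun p hp h3p hpZ => ?_⟩
    by_cases hp3 : p = 3
    · subst hp3
      rw [if_pos (hr.trans hρr), hβ' 3 hr]
      constructor
      · intro hh
        have : (ns + 6 * t) % 3 = (β r 3 a) % 3 := hh
        omega
      · intro hh
        have : (ns + 6 * t + 2) % 3 = (β r 3 a) % 3 := hh
        omega
    · have h5 : 5 ≤ p := by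
        rcases Nat.lt_or_ge p 5 with hlt | hge
        · have : p = 4 := by omega
          subst this
          exact absurd hp (by norm_num)
        · exact hge
      have hmem : p ∈ Ps (Z (r ^ 4)) := Helper90.Twin.mem_Ps.2 ⟨h5, hpZ, hp⟩
      have := h p hmem
      rw [hbad p hmem] at this
      push Not at this
      exact this

theorem YF_zero2 {Z ρ : ℕ → ℕ} {β : ℕ → ℕ → (ℕ → ℕ) → ℕ} {r : ℕ} {a b : ℕ → ℕ}
    (hβ : AdH ρ β) (hρr : ρ r ≤ r) (hr : 3 ≤ ρ r) (hrZ : ρ r ≤ Z (r ^ 4))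
    (hb : ∀ q, q ∉ lg (ρ r) (Z (r ^ 4)) → b q = a q) (n : ℕ)
    (hn : ¬ (n % 2 = 1 ∧ n % 3 = (β r 3 a + 2) % 3)) :
    YF 4 Z β r b n = 0 := by
  unfold YF
  rw [if_neg]
  rintro ⟨h1, h2⟩
  apply hn
  refine ⟨h1, ?_⟩
  obtain ⟨g1, g2⟩ := h2 3 Nat.prime_three le_rfl (by omega)
  have hβ' : β r 3 b = β r 3 a := by
    apply hβ.small r 3 hr
    intro q hq
    apply hb
    intro h
    have := (mem_lg.1 h).2.2.2
    omega
  rw [if_pos (hr.trans hρr), hβ'] at g1 g2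
  have g1' : ¬ (n % 3 = (β r 3 a) % 3) := g1
  have g2' : ¬ ((n + 2) % 3 = (β r 3 a) % 3) := g2
  generalize β r 3 a = c at g1' g2' ⊢
  have hn3 : n % 3 = 0 ∨ n % 3 = 1 ∨ n % 3 = 2 := by omega
  have hc3 : c % 3 = 0 ∨ c % 3 = 1 ∨ c % 3 = 2 := by omega
  rcases hn3 with h | h | h <;> rcases hc3 with h' | h' | h' <;> omega

/-! ### `|PA| ≤ 1` -/

theorem next_sum (X : ℕ → ℝ) (t H : ℕ) :
    ∑ g ∈ Icc 1 H, X (t + g) * ∏ i ∈ Ioo 0 g, (1 - X (t + i)) =
      1 - ∏ i ∈ Icc 1 H, (1 - X (t + i)) := by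
  induction H with
  | zero => simp
  | succ H ih =>
    rw [Finset.sum_Icc_succ_top (by omega), Finset.prod_Icc_succ_top (by omega), ih]
    have h1 : Ioo 0 (H + 1) = Icc 1 H := by
      ext i; simp only [Finset.mem_Ioo, Finset.mem_Icc]; omega
    rw [h1]; ring

theorem abs_phi_le {X : ℕ → ℝ} (hX : ∀ n, X n = 0 ∨ X n = 1) {c : ℕ → ℝ} (hc : ∀ g, |c g| ≤ 1)
    (H t : ℕ) : |phi c X H t| ≤ 1 := by
  have h0 : ∀ n, 0 ≤ X n ∧ X n ≤ 1 := fun n => by
    rcases hX n with h | h <;> rw [h] <;> norm_num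
  have hp : ∀ s : Finset ℕ, 0 ≤ ∏ i ∈ s, (1 - X (t + i)) := fun s =>
    Finset.prod_nonneg fun i _ => by linarith [(h0 (t + i)).2]
  rw [phi, abs_mul, abs_of_nonneg (h0 t).1]
  have h1 : |∑ g ∈ Icc 1 H, c g * X (t + g) * ∏ i ∈ Ioo 0 g, (1 - X (t + i))| ≤ 1 := by
    refine (Finset.abs_sum_le_sum_abs _ _).trans ?_
    have h2 : ∑ g ∈ Icc 1 H, |c g * X (t + g) * ∏ i ∈ Ioo 0 g, (1 - X (t + i))| ≤
        ∑ g ∈ Icc 1 H, X (t + g) * ∏ i ∈ Ioo 0 g, (1 - X (t + i)) := by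
      refine Finset.sum_le_sum fun g _ => ?_
      rw [abs_mul, abs_mul, abs_of_nonneg (h0 _).1, abs_of_nonneg (hp _)]
      refine mul_le_mul_of_nonneg_right ?_ (hp _)
      calc |c g| * X (t + g) ≤ 1 * X (t + g) := mul_le_mul_of_nonneg_right (hc g) (h0 _).1
        _ = X (t + g) := one_mul _
    refine h2.trans ?_
    rw [next_sum]
    linarith [hp (Icc 1 H)]
  calc X t * |∑ g ∈ Icc 1 H, c g * X (t + g) * ∏ i ∈ Ioo 0 g, (1 - X (t + i))| ≤ 1 * 1 :=
        mul_le_mul (h0 t).2 h1 (abs_nonneg _) zero_le_one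
    _ = 1 := one_mul _

theorem abs_PA_le (z : ℕ) : |PA z sg| ≤ 1 := by
  rw [PA, PAH, abs_div, Nat.abs_cast]
  have hX : ∀ n, Xz z n = 0 ∨ Xz z n = 1 := (Helper90.Twin.sieveSys z).XX_zero_one
  have hsg : ∀ g, |sg g| ≤ 1 := fun g => by rw [sg, abs_pow, abs_neg, abs_one, one_pow]
  refine div_le_one_of_le₀ ?_ (Nat.cast_nonneg _)
  refine (Finset.abs_sum_le_sum_abs _ _).trans ?_
  refine (Finset.sum_le_sum fun t _ => abs_phi_le hX hsg (HH z) t).trans ?_
  rw [Finset.sum_const, Finset.card_range, nsmul_eq_mul, mul_one]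

/-! ### The asymptotic conditions -/

theorem tendsto_log_nat : Tendsto (fun r : ℕ => Real.log r) atTop atTop :=
  Real.tendsto_log_atTop.comp tendsto_natCast_atTop_atTop

theorem tendsto_loglog_nat : Tendsto (fun r : ℕ => Real.log (Real.log r)) atTop atTop :=
  Real.tendsto_log_atTop.comp tendsto_log_nat

theorem ev_logZ {c : ℝ} (hc : 0 < c) {Z : ℕ → ℕ} (hZ : CutL c Z) :
    ∀ᶠ r : ℕ in atTop, 2 * c * Real.log r ≤ Real.log (Z (r ^ 4)) := by
  have h1 : Tendsto (fun r : ℕ => r ^ 4) atTop atTop := Filter.tendsto_pow_atTop (by norm_num)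
  have h2 := (hZ.lim.comp h1).eventually (eventually_ge_nhds (show c / 2 < c by linarith))
  filter_upwards [h2, eventually_ge_atTop 2] with r hr hr2
  have h3 : 0 < Real.log r := Real.log_pos (by exact_mod_cast (by omega : 1 < r))
  simp only [Function.comp] at hr
  push_cast at hr
  rw [Real.log_pow, le_div_iff₀ (by positivity)] at hr
  push_cast at hr
  linarith

theorem tendsto_Z {c : ℝ} (hc : 0 < c) {Z : ℕ → ℕ} (hZ : CutL c Z) :
    Tendsto (fun r : ℕ => Z (r ^ 4)) atTop atTop := by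
  have h1 : Tendsto (fun r : ℕ => 2 * c * Real.log r) atTop atTop :=
    tendsto_log_nat.const_mul_atTop (by positivity)
  have h2 : Tendsto (fun r : ℕ => ((Z (r ^ 4) : ℕ) : ℝ)) atTop atTop := by
    refine Filter.tendsto_atTop_mono' atTop ?_ h1
    filter_upwards [ev_logZ hc hZ] with r hr
    exact hr.trans (Real.log_le_self (Nat.cast_nonneg _))
  exact tendsto_natCast_atTop_iff.1 h2

theorem ev_rho {c : ℝ} (hc : 0 < c) {ρ : ℕ → ℕ} (hρ : Thr ρ) :
    ∀ᶠ r : ℕ in atTop, Real.log (ρ r) * Real.log (Real.log r) ^ 2 ≤ c * Real.log r := by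
  have h2 := hρ.high.eventually (eventually_le_nhds hc)
  filter_upwards [h2, eventually_ge_atTop 2] with r hr hr2
  have h3 : 0 < Real.log r := Real.log_pos (by exact_mod_cast (by omega : 1 < r))
  rwa [div_le_iff₀ h3] at hr

theorem blk2 (h1 : MEANG) : Pool.Agent.Helper76.TB.BLK2G := by
  intro c hc Z ρ hZ hρ
  obtain ⟨C, hC1, hev⟩ := h1
  have hC0 : 0 < C := by linarith
  have hev' := (tendsto_Z hc hZ).eventually hev
  refine ⟨1 / (2 * c) ^ 5 + 1, ?_⟩
  have hlog5 : ∀ᶠ r : ℕ in atTop, Real.log r ^ 5 ≤ r := by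
    have h := (Real.isLittleO_pow_log_id_atTop (n := 5)).bound (show (0 : ℝ) < 1 by norm_num)
    filter_upwards [tendsto_natCast_atTop_atTop.eventually h] with r hr
    simp only [id, one_mul, Real.norm_eq_abs, Nat.abs_cast] at hr
    exact (le_abs_self _).trans hr
  filter_upwards [hev', ev_logZ hc hZ, ev_rho (c := c) hc hρ,
    ev_rho (c := 1 / (12 * C)) (by positivity) hρ, hρ.low,
    tendsto_loglog_nat.eventually_ge_atTop 2, eventually_ge_atTop 6, hlog5,
    (tendsto_log_nat.const_mul_atTop (show 0 < 2 * c by positivity)).eventually_ge_atTop 1,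
    tendsto_log_nat.eventually_ge_atTop 1]
    with r hmean hlogZ hρc hρC hlow hll hr6 hl5 hcl hl1 β hβ a
  have hlr : 0 < Real.log r := by linarith
  have hρr : ρ r ≤ r := hρ.le r
  -- sizes
  have hpow20 : (2 : ℝ) ≤ Real.log r := by
    have h := Real.add_one_le_exp (Real.log (Real.log r))
    rw [Real.exp_log hlr] at h
    linarith
  have hρ20 : (3 : ℝ) ≤ ρ r := by
    refine le_trans ?_ hlow
    calc (3 : ℝ) ≤ 2 ^ 20 := by norm_num
      _ ≤ Real.log r ^ 20 := by gcongr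
  have hρ3 : 3 ≤ ρ r := by exact_mod_cast hρ20
  have hρpos : (0 : ℝ) < ρ r := by linarith
  have hlogρ : 20 * Real.log (Real.log r) ≤ Real.log (ρ r) := by
    have h := Real.log_le_log (by positivity) hlow
    rw [Real.log_pow] at h
    push_cast at h
    exact h
  have hlogρ0 : 0 ≤ Real.log (ρ r) := by linarith
  have hrZ : ρ r ≤ Z (r ^ 4) := by
    have h2 : Real.log (ρ r) ≤ Real.log (Z (r ^ 4)) := by
      have h3 : (1 : ℝ) ≤ Real.log (Real.log r) ^ 2 := by nlinarith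
      have h4 : Real.log (ρ r) * 1 ≤ Real.log (ρ r) * Real.log (Real.log r) ^ 2 :=
        mul_le_mul_of_nonneg_left h3 hlogρ0
      nlinarith
    have hZpos : (0 : ℝ) < Z (r ^ 4) := by
      rcases Nat.eq_zero_or_pos (Z (r ^ 4)) with h0 | h0
      · rw [h0] at hlogZ
        simp at hlogZ
        nlinarith
      · exact_mod_cast h0
    exact_mod_cast (Real.log_le_log_iff hρpos hZpos).1 h2
  have hZr : Z (r ^ 4) ≤ r ^ 4 := hZ.le _
  -- the progression
  obtain ⟨i0, hi0, hprog⟩ : ∃ i0 < 6, ∀ i, i % 6 = i0 ↔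
      ((r ^ 4 + i) % 2 = 1 ∧ (r ^ 4 + i) % 3 = (β r 3 a + 2) % 3) := by
    generalize r ^ 4 = m
    generalize β r 3 a = c
    refine ⟨((3 + 4 * (c + 2)) % 6 + 6 - m % 6) % 6, Nat.mod_lt _ (by norm_num), fun i => ?_⟩
    omega
  set ns := r ^ 4 + i0 with hns
  have hns' := (hprog i0).1 (Nat.mod_eq_of_lt hi0)
  set N := cnt i0 (len 4 r) with hN
  set Zr := Z (r ^ 4) with hZrdef
  have hlen1 : r ^ 3 ≤ len 4 r := len_ge 4 r (by omega)
  have hpow : r ^ 3 = r * r ^ 2 := by ring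
  have hN1 : len 4 r ≤ 6 * N + i0 ∧ 6 * N ≤ len 4 r + 5 := by
    rw [hN]; unfold cnt; omega
  have hNr : r ^ 2 ≤ N := by
    have h1 : 6 * r ^ 2 ≤ r * r ^ 2 := Nat.mul_le_mul_right _ hr6
    have h2 : 1 ≤ r ^ 2 := Nat.one_le_pow _ _ (by omega)
    by_contra hlt
    push Not at hlt
    have : 6 * N + 6 ≤ 6 * r ^ 2 := by omega
    omega
  -- dictionary
  have key : ∀ b : ℕ → ℕ, (∀ q, q ∉ lg (ρ r) Zr → b q = a q) → ∀ t,
      YF 4 Z β r b (r ^ 4 + (i0 + 6 * t)) = XA Zr (tr (ρ r) Zr ns (fun p => β r p a) b) t := by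
    intro b hb t
    rw [← add_assoc]
    exact YF_eq2 hβ hρr hρ3 hb hns'.1 hns'.2 t
  have key0 : ∀ b : ℕ → ℕ, (∀ q, q ∉ lg (ρ r) Zr → b q = a q) → ∀ i, i % 6 ≠ i0 →
      YF 4 Z β r b (r ^ 4 + i) = 0 := by
    intro b hb i hi
    apply YF_zero2 hβ hρr hρ3 hrZ hb
    intro h
    exact hi ((hprog i).2 h)
  have hT0 : EE2 ρ Z (T0 4 Z β r) r a =
      Av (lg (ρ r) Zr) (fun A => B0 (XA Zr A) N) (tr (ρ r) Zr ns (fun p => β r p a) a) := by
    unfold EE2
    rw [Av_congr (lg (ρ r) Zr) (T0 4 Z β r)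
      (fun b => B0 (XA Zr (tr (ρ r) Zr ns (fun p => β r p a) b)) N) a]
    · classical
      exact Av_trans (lg (ρ r) Zr) lg_pos (fun A => B0 (XA Zr A) N)
        (fun A A' h => by unfold B0; exact Finset.sum_congr rfl fun t _ => XA_congr Zr h t)
        (fun p => p ∈ lg (ρ r) Zr) (fun q hq => hq) ns (fun p => β r p a) a
    · intro b hb
      unfold T0 B0
      rw [sum_prog hi0 _ (key0 b hb)]
      exact Finset.sum_congr rfl fun t _ => key b hb t
  have hT1 : EE2 ρ Z (T1 4 Z β r) r a = chi ns *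
      Av (lg (ρ r) Zr) (fun A => B1 (XA Zr A) N) (tr (ρ r) Zr ns (fun p => β r p a) a) := by
    unfold EE2
    rw [Av_congr (lg (ρ r) Zr) (T1 4 Z β r)
      (fun b => chi ns * B1 (XA Zr (tr (ρ r) Zr ns (fun p => β r p a) b)) N) a]
    · rw [Av_mul_left]
      congr 1
      classical
      exact Av_trans (lg (ρ r) Zr) lg_pos (fun A => B1 (XA Zr A) N)
        (fun A A' h => by
          unfold B1; exact Finset.sum_congr rfl fun t _ => by rw [XA_congr Zr h t])
        (fun p => p ∈ lg (ρ r) Zr) (fun q hq => hq) ns (fun p => β r p a) a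
    · intro b hb
      unfold T1 B1
      rw [sum_prog hi0 _ (fun i hi => by rw [key0 b hb i hi, mul_zero]), Finset.mul_sum]
      refine Finset.sum_congr rfl fun t _ => ?_
      rw [key b hb t, ← add_assoc, chi_add _ _ hns'.1]
      ring
  have hT2 : EE2 ρ Z (T2 4 Z β r) r a =
      Av (lg (ρ r) Zr) (fun A => B2 (XA Zr A) N) (tr (ρ r) Zr ns (fun p => β r p a) a) := by
    unfold EE2
    rw [Av_congr (lg (ρ r) Zr) (T2 4 Z β r)
      (fun b => B2 (XA Zr (tr (ρ r) Zr ns (fun p => β r p a) b)) N) a]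
    · classical
      exact Av_trans (lg (ρ r) Zr) lg_pos (fun A => B2 (XA Zr A) N)
        (fun A A' h => by
          unfold B2
          rw [run_congr _ _ (XA Zr A) (XA Zr A') (fun _ => rfl) (fun t => XA_congr Zr h t)])
        (fun p => p ∈ lg (ρ r) Zr) (fun q hq => hq) ns (fun p => β r p a) a
    · intro b hb
      unfold T2 B2
      rw [run_prog hi0 _ _ (key0 b hb)]
      rw [run_congr _ (fun t => chi ns * (-1) ^ t) _
        (XA Zr (tr (ρ r) Zr ns (fun p => β r p a) b))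
        (fun t => by rw [← add_assoc, chi_add _ _ hns'.1]) (fun t => key b hb t)]
      exact (run_scale (chi ns) (chi_sq ns) _ _ _).1
  -- the condition on `log N`
  have hN0 : (0 : ℝ) < N := by
    have : 1 ≤ r ^ 2 := Nat.one_le_pow _ _ (by omega)
    exact_mod_cast lt_of_lt_of_le Nat.zero_lt_one (this.trans hNr)
  have hlogN : Real.log r ≤ Real.log N := by
    refine Real.log_le_log (by exact_mod_cast (by omega : 0 < r)) ?_
    have : r ≤ r ^ 2 := Nat.le_self_pow (by norm_num) r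
    exact_mod_cast this.trans hNr
  have hZpos : (0 : ℝ) < Zr := by
    exact_mod_cast lt_of_lt_of_le (by omega : 0 < ρ r) hrZ
  have hLZ1 : 1 ≤ Real.log Zr := hcl.trans hlogZ
  have hl2lo : 0 ≤ l2 Zr := Real.log_nonneg hLZ1
  have hl2hi : l2 Zr ≤ 2 * Real.log (Real.log r) := by
    have e1 : Real.log Zr ≤ 4 * Real.log r := by
      have h := Real.log_le_log hZpos (show (Zr : ℝ) ≤ ((r ^ 4 : ℕ) : ℝ) by exact_mod_cast hZr)
      push_cast at h
      rw [Real.log_pow] at h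
      exact_mod_cast h
    have e2 : l2 Zr ≤ Real.log (4 * Real.log r) := Real.log_le_log (by linarith) e1
    rw [Real.log_mul (by norm_num) hlr.ne'] at e2
    have e3 : Real.log 4 ≤ 2 := by
      have : Real.log 4 = 2 * Real.log 2 := by
        rw [show (4 : ℝ) = 2 ^ 2 by norm_num, Real.log_pow]; push_cast; ring
      rw [this]
      have := Real.log_two_lt_d9
      linarith
    linarith
  have hρ2 : Real.log ((ρ r : ℝ) + 2) ≤ 2 * Real.log (ρ r) := by
    have e1 : (ρ r : ℝ) + 2 ≤ (ρ r : ℝ) ^ 2 := by nlinarith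
    have h := Real.log_le_log (by positivity) e1
    rw [Real.log_pow] at h
    exact_mod_cast h
  have hcond : C * l2 Zr ^ 2 * (Real.log ((ρ r : ℝ) + 2) + l2 Zr) ≤ Real.log N := by
    set w := Real.log (Real.log r) with hw
    have e1 : l2 Zr ^ 2 ≤ (2 * w) ^ 2 := by gcongr
    have e2 : Real.log ((ρ r : ℝ) + 2) + l2 Zr ≤ 3 * Real.log (ρ r) := by linarith
    have e3 : 0 ≤ Real.log ((ρ r : ℝ) + 2) + l2 Zr :=
      add_nonneg (Real.log_nonneg (by linarith)) hl2lo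
    have e4 : C * l2 Zr ^ 2 * (Real.log ((ρ r : ℝ) + 2) + l2 Zr) ≤
        C * (2 * w) ^ 2 * (3 * Real.log (ρ r)) := by
      refine mul_le_mul (mul_le_mul_of_nonneg_left e1 hC0.le) e2 e3 (by positivity)
    have e5 : C * (2 * w) ^ 2 * (3 * Real.log (ρ r)) = 12 * C * (Real.log (ρ r) * w ^ 2) := by ring
    have e6 : 12 * C * (Real.log (ρ r) * w ^ 2) ≤ 12 * C * (1 / (12 * C) * Real.log r) :=
      mul_le_mul_of_nonneg_left hρC (by positivity)
    have e7 : 12 * C * (1 / (12 * C) * Real.log r) = Real.log r := by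
      field_simp
    rw [e5] at e4
    rw [e7] at e6
    linarith
  obtain ⟨c0, c1, c2⟩ := hmean (ρ r) hrZ N hcond (tr (ρ r) Zr ns (fun p => β r p a) a)
  -- numerics
  have hG : 0 < Gz Zr := Helper90.Twin.Gz_pos Zr
  have hG1 : Gz Zr ≤ 1 := Helper90.Twin.Gz_le_one Zr
  have hmT : mT 4 Z r = len 4 r * Gz Zr / 6 := rfl
  have hNlen : |(N : ℝ) - len 4 r / 6| ≤ 1 := by
    have h1 : (len 4 r : ℝ) ≤ 6 * N + i0 := by exact_mod_cast hN1.1
    have h2 : (6 * N : ℝ) ≤ len 4 r + 5 := by exact_mod_cast hN1.2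
    have h3 : (i0 : ℝ) ≤ 6 := by exact_mod_cast hi0.le
    rw [abs_le]; constructor <;> linarith
  have hlenr : (r : ℝ) ≤ len 4 r := by
    have : r ≤ r ^ 3 := Nat.le_self_pow (by norm_num) r
    exact_mod_cast this.trans hlen1
  have hl5pos : 0 < Real.log r ^ 5 := by positivity
  have hone : (1 : ℝ) ≤ len 4 r / Real.log r ^ 5 := by
    rw [le_div_iff₀ hl5pos, one_mul]
    exact hl5.trans hlenr
  have hNle : (N : ℝ) ≤ len 4 r := by
    have h2 : (6 * N : ℝ) ≤ len 4 r + 5 := by exact_mod_cast hN1.2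
    have h3 : (6 : ℝ) ≤ r := by exact_mod_cast hr6
    linarith
  have herr : (N : ℝ) / Real.log Zr ^ 5 ≤ 1 / (2 * c) ^ 5 * (len 4 r / Real.log r ^ 5) := by
    have e1 : (2 * c * Real.log r) ^ 5 ≤ Real.log Zr ^ 5 := by gcongr
    have e2 : (N : ℝ) / Real.log Zr ^ 5 ≤ len 4 r / (2 * c * Real.log r) ^ 5 :=
      div_le_div₀ (Nat.cast_nonneg _) hNle (by positivity) e1
    refine e2.trans (le_of_eq ?_)
    rw [mul_pow]
    field_simp
  have hfin : ∀ x : ℝ, x ≤ (N : ℝ) / Real.log Zr ^ 5 + 1 →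
      x ≤ (1 / (2 * c) ^ 5 + 1) * (len 4 r / Real.log r ^ 5) := by
    intro x hx
    have : (1 / (2 * c) ^ 5 + 1) * (len 4 r / Real.log r ^ 5) =
        1 / (2 * c) ^ 5 * (len 4 r / Real.log r ^ 5) + len 4 r / Real.log r ^ 5 := by ring
    rw [this]
    linarith
  refine ⟨?_, ?_, ?_⟩
  · rw [hT0]
    apply hfin
    have h1 : |Av (lg (ρ r) Zr) (fun A => B0 (XA Zr A) N) (tr (ρ r) Zr ns (fun p => β r p a) a)
        - mT 4 Z r| ≤ |Av (lg (ρ r) Zr) (fun A => B0 (XA Zr A) N)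
          (tr (ρ r) Zr ns (fun p => β r p a) a) - N * Gz Zr| + |(N : ℝ) * Gz Zr - mT 4 Z r| :=
      abs_sub_le _ _ _
    have h2 : |(N : ℝ) * Gz Zr - mT 4 Z r| ≤ 1 := by
      have h1 : (N : ℝ) * Gz Zr - mT 4 Z r = (N - len 4 r / 6) * Gz Zr := by rw [hmT]; ring
      rw [h1, abs_mul, abs_of_pos hG]
      calc |(N : ℝ) - len 4 r / 6| * Gz Zr ≤ 1 * 1 :=
            mul_le_mul hNlen hG1 hG.le zero_le_one
        _ = 1 := one_mul _
    linarith
  · rw [hT1, abs_mul, chi_abs, one_mul]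
    apply hfin
    linarith
  · rw [hT2]
    apply hfin
    have e1 : mT 4 Z r * DD Zr = len 4 r / 6 * PA Zr sg := by
      rw [hmT, DD]
      field_simp
    rw [e1]
    have h1 : |Av (lg (ρ r) Zr) (fun A => B2 (XA Zr A) N) (tr (ρ r) Zr ns (fun p => β r p a) a)
        - len 4 r / 6 * PA Zr sg| ≤ |Av (lg (ρ r) Zr) (fun A => B2 (XA Zr A) N)
          (tr (ρ r) Zr ns (fun p => β r p a) a) - N * PA Zr sg| +
          |(N : ℝ) * PA Zr sg - len 4 r / 6 * PA Zr sg| := abs_sub_le _ _ _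
    have h2 : |(N : ℝ) * PA Zr sg - len 4 r / 6 * PA Zr sg| ≤ 1 := by
      rw [← sub_mul, abs_mul]
      calc |(N : ℝ) - len 4 r / 6| * |PA Zr sg| ≤ 1 * 1 :=
            mul_le_mul hNlen (abs_PA_le Zr) (abs_nonneg _) zero_le_one
        _ = 1 := one_mul _
    linarith

end Pool.Agent.Helper10.TB
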