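import Pool.Agent.Helper22.TB.Goals

/-!
# Project TB (MP_74f661_nt), packet BRU: Brun's pure sieve
-/

set_option autoImplicit false

open Finset
open scoped Classical
open Pool.Agent.Helper22.TB

namespace Pool.Agent.Helper10.TB

/-- the elementary symmetric polynomial -/
noncomputable def es (x : ℕ → ℝ) (P : Finset ℕ) (j : ℕ) : ℝ :=
  ∑ d ∈ P.powersetCard j, ∏ p ∈ d, x p

theorem es_zero (x : ℕ → ℝ) (P : Finset ℕ) : es x P 0 = 1 := by
  simp [es]

theorem es_empty (x : ℕ → ℝ) (j : ℕ) : es x ∅ (j + 1) = 0 := by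
  rw [es, Finset.powersetCard_eq_empty.2 (by simp), Finset.sum_empty]

theorem es_insert (x : ℕ → ℝ) (P : Finset ℕ) {p : ℕ} (hp : p ∉ P) (j : ℕ) :
    es x (insert p P) (j + 1) = es x P (j + 1) + x p * es x P j := by
  rw [es, Finset.powersetCard_succ_insert hp, Finset.sum_union, Finset.sum_image, es, es,
    Finset.mul_sum]
  · congr 1
    refine Finset.sum_congr rfl fun d hd => ?_
    have h1 : p ∉ d := fun h => hp ((Finset.mem_powersetCard.1 hd).1 h)
    rw [Finset.prod_insert h1]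
  · intro d hd e he hde
    have h1 : p ∉ d := fun h => hp ((Finset.mem_powersetCard.1 hd).1 h)
    have h2 : p ∉ e := fun h => hp ((Finset.mem_powersetCard.1 he).1 h)
    rw [← Finset.erase_insert h1, ← Finset.erase_insert h2]
    exact congrArg (fun s => Finset.erase s p) hde
  · rw [Finset.disjoint_left]
    intro d hd he
    obtain ⟨e, he1, rfl⟩ := Finset.mem_image.1 he
    exact hp ((Finset.mem_powersetCard.1 hd).1 (Finset.mem_insert_self _ _))

theorem es_nonneg {x : ℕ → ℝ} {P : Finset ℕ} (hx : ∀ p ∈ P, 0 ≤ x p) (j : ℕ) : 0 ≤ es x P j := by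
  refine Finset.sum_nonneg fun d hd => Finset.prod_nonneg fun p hp => hx p ?_
  exact (Finset.mem_powersetCard.1 hd).1 hp

/-- Bonferroni -/
theorem bonf (x : ℕ → ℝ) (P : Finset ℕ) (hx : ∀ p ∈ P, 0 ≤ x p ∧ x p ≤ 1) (b : ℕ) :
    0 ≤ (-1 : ℝ) ^ b * (∏ p ∈ P, (1 - x p) - ∑ j ∈ range b, (-1 : ℝ) ^ j * es x P j) ∧
    (-1 : ℝ) ^ b * (∏ p ∈ P, (1 - x p) - ∑ j ∈ range b, (-1 : ℝ) ^ j * es x P j) ≤ es x P b := by
  induction P using Finset.induction_on generalizing b with
  | empty =>
    rcases b with _ | b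
    · simp [es_zero]
    · rw [Finset.sum_range_succ']
      simp [es_zero, es_empty]
  | insert p P hp ih =>
    have hxP : ∀ r ∈ P, 0 ≤ x r ∧ x r ≤ 1 := fun r hr => hx r (Finset.mem_insert_of_mem hr)
    have hxp := hx p (Finset.mem_insert_self _ _)
    rcases b with _ | b
    · have h1 : ∀ r ∈ insert p P, 0 ≤ 1 - x r := fun r hr => by linarith [(hx r hr).2]
      have h2 : ∀ r ∈ insert p P, 1 - x r ≤ 1 := fun r hr => by linarith [(hx r hr).1]
      simp only [pow_zero, Finset.range_zero, Finset.sum_empty, sub_zero, one_mul, es_zero]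
      exact ⟨Finset.prod_nonneg h1, Finset.prod_le_one h1 h2⟩
    · have e1 : ∑ j ∈ range (b + 1), (-1 : ℝ) ^ j * es x (insert p P) j =
          ∑ j ∈ range (b + 1), (-1 : ℝ) ^ j * es x P j
            - x p * ∑ j ∈ range b, (-1 : ℝ) ^ j * es x P j := by
        rw [Finset.sum_range_succ', Finset.sum_range_succ' (fun j => (-1 : ℝ) ^ j * es x P j),
          Finset.mul_sum]
        simp only [es_insert x P hp, es_zero]
        have e2 : ∑ k ∈ range b, (-1 : ℝ) ^ (k + 1) * (es x P (k + 1) + x p * es x P k) =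
            ∑ k ∈ range b, (-1 : ℝ) ^ (k + 1) * es x P (k + 1)
              - ∑ k ∈ range b, x p * ((-1 : ℝ) ^ k * es x P k) := by
          rw [← Finset.sum_sub_distrib]
          refine Finset.sum_congr rfl fun k _ => ?_
          rw [pow_succ]; ring
        rw [e2]; ring
      have i1 := ih hxP (b + 1)
      have i2 := ih hxP b
      have e3 : (-1 : ℝ) ^ (b + 1) * (∏ r ∈ insert p P, (1 - x r) -
          ∑ j ∈ range (b + 1), (-1 : ℝ) ^ j * es x (insert p P) j) =
          (-1 : ℝ) ^ (b + 1) * (∏ r ∈ P, (1 - x r) - ∑ j ∈ range (b + 1), (-1 : ℝ) ^ j * es x P j)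
          + x p * ((-1 : ℝ) ^ b * (∏ r ∈ P, (1 - x r) - ∑ j ∈ range b, (-1 : ℝ) ^ j * es x P j)) := by
        rw [e1, Finset.prod_insert hp, pow_succ]; ring
      rw [e3, es_insert x P hp]
      refine ⟨add_nonneg i1.1 (mul_nonneg hxp.1 i2.1), add_le_add i1.2 ?_⟩
      exact mul_le_mul_of_nonneg_left i2.2 hxp.1

theorem bonf_abs (x : ℕ → ℝ) (P : Finset ℕ) (hx : ∀ p ∈ P, 0 ≤ x p ∧ x p ≤ 1) (b : ℕ) :
    |∏ p ∈ P, (1 - x p) - ∑ j ∈ range b, (-1 : ℝ) ^ j * es x P j| ≤ es x P b := by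
  have h := bonf x P hx b
  have h1 : |(-1 : ℝ) ^ b * (∏ p ∈ P, (1 - x p) - ∑ j ∈ range b, (-1 : ℝ) ^ j * es x P j)| =
      |∏ p ∈ P, (1 - x p) - ∑ j ∈ range b, (-1 : ℝ) ^ j * es x P j| := by
    rw [abs_mul, abs_pow, abs_neg, abs_one, one_pow, one_mul]
  rw [← h1, abs_of_nonneg h.1]
  exact h.2

theorem pow_bern {S y : ℝ} (hS : 0 ≤ S) (hy : 0 ≤ y) (b : ℕ) :
    S ^ (b + 1) + (b + 1) * y * S ^ b ≤ (S + y) ^ (b + 1) := by
  induction b with
  | zero => simp
  | succ b ih =>
    have h1 : (S + y) ^ (b + 1 + 1) = (S + y) ^ (b + 1) * (S + y) := pow_succ _ _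
    have h2 := mul_le_mul_of_nonneg_right ih (add_nonneg hS hy)
    have h3 : 0 ≤ ((b : ℝ) + 1) * y ^ 2 * S ^ b := by positivity
    rw [h1]
    refine le_trans ?_ h2
    push_cast
    have e : (S ^ (b + 1) + (↑b + 1) * y * S ^ b) * (S + y) =
        S ^ (b + 1 + 1) + (↑b + 1 + 1) * y * S ^ (b + 1) + (↑b + 1) * y ^ 2 * S ^ b := by ring
    rw [e]; linarith

theorem es_le {x : ℕ → ℝ} (P : Finset ℕ) (hx : ∀ p ∈ P, 0 ≤ x p) (b : ℕ) :
    es x P b ≤ (∑ p ∈ P, x p) ^ b / b.factorial := by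
  induction P using Finset.induction_on generalizing b with
  | empty =>
    rcases b with _ | b
    · simp [es_zero]
    · simp [es_empty]
  | insert p P hp ih =>
    have hxP : ∀ r ∈ P, 0 ≤ x r := fun r hr => hx r (Finset.mem_insert_of_mem hr)
    have hxp := hx p (Finset.mem_insert_self _ _)
    rcases b with _ | b
    · simp [es_zero]
    · rw [es_insert x P hp, Finset.sum_insert hp]
      have i1 := ih hxP (b + 1)
      have i2 := ih hxP b
      have hS : 0 ≤ ∑ r ∈ P, x r := Finset.sum_nonneg hxP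
      have h1 := pow_bern hS hxp b
      have hf : (0 : ℝ) < ((b + 1).factorial : ℝ) := by positivity
      have hf' : (0 : ℝ) < (b.factorial : ℝ) := by positivity
      have hff : ((b + 1).factorial : ℝ) = (b + 1) * b.factorial := by
        rw [Nat.factorial_succ]; push_cast; ring
      have i3 : x p * es x P b ≤ x p * ((∑ r ∈ P, x r) ^ b / b.factorial) :=
        mul_le_mul_of_nonneg_left i2 hxp
      refine (add_le_add i1 i3).trans ?_
      rw [le_div_iff₀ hf]
      have e : ((∑ r ∈ P, x r) ^ (b + 1) / ((b + 1).factorial : ℝ)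
          + x p * ((∑ r ∈ P, x r) ^ b / b.factorial)) * ((b + 1).factorial : ℝ)
          = (∑ r ∈ P, x r) ^ (b + 1) + (b + 1) * x p * (∑ r ∈ P, x r) ^ b := by
        rw [add_mul, div_mul_cancel₀ _ hf.ne', hff]
        field_simp
      rw [e, add_comm (x p)]
      exact h1

theorem sum_es_le {x : ℕ → ℝ} (P : Finset ℕ) (hx : ∀ p ∈ P, 0 ≤ x p) (b : ℕ) :
    ∑ j ∈ range (b + 1), es x P j ≤ (1 + ∑ p ∈ P, x p) ^ b := by
  have hS : 0 ≤ ∑ r ∈ P, x r := Finset.sum_nonneg hx
  rw [add_comm (1 : ℝ), add_pow]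
  refine Finset.sum_le_sum fun j hj => (es_le P hx j).trans ?_
  rw [one_pow, mul_one, div_eq_mul_inv]
  refine mul_le_mul_of_nonneg_left ?_ (pow_nonneg hS j)
  have hjb : j ≤ b := Nat.lt_succ_iff.1 (Finset.mem_range.1 hj)
  have h1 : (1 : ℝ) ≤ (b.choose j : ℝ) := by exact_mod_cast Nat.choose_pos hjb
  have h2 : ((j.factorial : ℝ))⁻¹ ≤ 1 := by
    apply inv_le_one_of_one_le₀
    exact_mod_cast Nat.factorial_pos j
  exact h2.trans h1

/-! ### counting residues -/

theorem per_mod {A : ℕ → Prop} {a : ℕ} (hA : ∀ t, A (t + a) ↔ A t) (t : ℕ) : A (t % a) ↔ A t := by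
  have h1 : ∀ k t, A (t + a * k) ↔ A t := by
    intro k
    induction k with
    | zero => intro t; simp
    | succ k ih => intro t; rw [Nat.mul_succ, ← add_assoc, hA, ih]
  conv_rhs => rw [← Nat.mod_add_div t a]
  exact (h1 _ _).symm

theorem card_crt {A B : ℕ → Prop} [DecidablePred A] [DecidablePred B] {a b : ℕ} (ha : 0 < a) (hb : 0 < b) (hab : Nat.Coprime a b)
    (hA : ∀ t, A (t + a) ↔ A t) (hB : ∀ t, B (t + b) ↔ B t) :
    ((range (a * b)).filter fun t => A t ∧ B t).card =
      ((range a).filter fun t => A t).card * ((range b).filter fun t => B t).card := by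
  rw [← Finset.card_product]
  refine Finset.card_bij' (fun t _ => (t % a, t % b)) (fun u _ => (Nat.chineseRemainder hab u.1 u.2 : ℕ))
    ?_ ?_ ?_ ?_
  · intro t ht
    obtain ⟨-, h1, h2⟩ := Finset.mem_filter.1 ht
    exact Finset.mem_product.2 ⟨Finset.mem_filter.2 ⟨Finset.mem_range.2 (Nat.mod_lt _ ha),
      (per_mod hA t).2 h1⟩, Finset.mem_filter.2 ⟨Finset.mem_range.2 (Nat.mod_lt _ hb),
      (per_mod hB t).2 h2⟩⟩
  · intro u hu
    obtain ⟨h1, h2⟩ := Finset.mem_product.1 hu
    obtain ⟨h3, h4⟩ := Finset.mem_filter.1 h1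
    obtain ⟨h5, h6⟩ := Finset.mem_filter.1 h2
    have c1 := (Nat.chineseRemainder hab u.1 u.2).2.1
    have c2 := (Nat.chineseRemainder hab u.1 u.2).2.2
    refine Finset.mem_filter.2 ⟨Finset.mem_range.2
      (Nat.chineseRemainder_lt_mul hab _ _ ha.ne' hb.ne'), ?_, ?_⟩
    · rw [← per_mod hA, c1, per_mod hA]; exact h4
    · rw [← per_mod hB, c2, per_mod hB]; exact h6
  · intro t ht
    obtain ⟨h0, -⟩ := Finset.mem_filter.1 ht
    have h1 := Nat.chineseRemainder_modEq_unique hab (a := t % a) (b := t % b) (z := t)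
      (Nat.mod_modEq _ _).symm (Nat.mod_modEq _ _).symm
    have h2 := Nat.chineseRemainder_lt_mul hab (t % a) (t % b) ha.ne' hb.ne'
    exact (Nat.ModEq.eq_of_lt_of_lt h1 (Finset.mem_range.1 h0) h2).symm
  · intro u hu
    obtain ⟨h1, h2⟩ := Finset.mem_product.1 hu
    obtain ⟨h3, h4⟩ := Finset.mem_filter.1 h1
    obtain ⟨h5, h6⟩ := Finset.mem_filter.1 h2
    have c1 := (Nat.chineseRemainder hab u.1 u.2).2.1
    have c2 := (Nat.chineseRemainder hab u.1 u.2).2.2
    have e1 : (Nat.chineseRemainder hab u.1 u.2 : ℕ) % a = u.1 := by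
      have := c1
      rw [Nat.ModEq, Nat.mod_eq_of_lt (Finset.mem_range.1 h3)] at this
      exact this
    have e2 : (Nat.chineseRemainder hab u.1 u.2 : ℕ) % b = u.2 := by
      have := c2
      rw [Nat.ModEq, Nat.mod_eq_of_lt (Finset.mem_range.1 h5)] at this
      exact this
    exact Prod.ext e1 e2

/-- the number of the `t < N` with a periodic property. -/
theorem card_per {A : ℕ → Prop} [DecidablePred A] {a : ℕ} (ha : 0 < a) (hA : ∀ t, A (t + a) ↔ A t) (N : ℕ) :
    |(((range N).filter fun t => A t).card : ℝ) - N * (((range a).filter fun t => A t).card / a)|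
      ≤ (((range a).filter fun t => A t).card : ℝ) := by
  have h1 : ((range N).filter fun t => A t).card =
      ∑ r ∈ (range a).filter (fun t => A t), ((range N).filter fun t => t ≡ r [MOD a]).card := by
    rw [Finset.card_eq_sum_card_fiberwise (f := fun t => t % a)
      (t := (range a).filter (fun t => A t))]
    · refine Finset.sum_congr rfl fun r hr => ?_
      obtain ⟨hr1, hr2⟩ := Finset.mem_filter.1 hr
      congr 1
      ext t
      simp only [Finset.mem_filter, Finset.mem_range, Nat.ModEq,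
        Nat.mod_eq_of_lt (Finset.mem_range.1 hr1)]
      constructor
      · rintro ⟨⟨h1, h2⟩, h3⟩; exact ⟨h1, h3⟩
      · rintro ⟨h1, h3⟩
        refine ⟨⟨h1, ?_⟩, h3⟩
        rw [← per_mod hA, h3]; exact hr2
    · intro t ht
      obtain ⟨_, h2⟩ := Finset.mem_filter.1 (Finset.mem_coe.1 ht)
      exact Finset.mem_coe.2 (Finset.mem_filter.2 ⟨Finset.mem_range.2 (Nat.mod_lt _ ha),
        (per_mod hA t).2 h2⟩)
  have h2 : ∀ r, |(((range N).filter fun t => t ≡ r [MOD a]).card : ℝ) - N / a| ≤ 1 := by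
    intro r
    have e1 : ((range N).filter fun t => t ≡ r [MOD a]).card =
        N / a + if r % a < N % a then 1 else 0 := by
      rw [← Nat.count_modEq_card N ha r, Nat.count_eq_card_filter_range]
    rw [e1]
    have e2 : (N : ℝ) / a = ((N / a : ℕ) : ℝ) + ((N % a : ℕ) : ℝ) / a := by
      have ha' : (a : ℝ) ≠ 0 := by exact_mod_cast ha.ne'
      field_simp
      have := Nat.div_add_mod N a
      exact_mod_cast this.symm
    rw [e2]
    have e3 : ((N % a : ℕ) : ℝ) / a < 1 := by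
      rw [div_lt_one (by exact_mod_cast ha)]
      exact_mod_cast Nat.mod_lt N ha
    have e4 : 0 ≤ ((N % a : ℕ) : ℝ) / a := by positivity
    push_cast
    split_ifs
    · rw [abs_le]; constructor <;> linarith
    · rw [abs_le]; constructor <;> linarith
  rw [h1]
  push_cast
  have e5 : ∑ r ∈ (range a).filter (fun t => A t), (((range N).filter fun t => t ≡ r [MOD a]).card : ℝ)
      - N * (((range a).filter fun t => A t).card / a) =
      ∑ r ∈ (range a).filter (fun t => A t),
        ((((range N).filter fun t => t ≡ r [MOD a]).card : ℝ) - N / a) := by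
    rw [Finset.sum_sub_distrib, Finset.sum_const, nsmul_eq_mul]
    ring
  rw [e5]
  refine (Finset.abs_sum_le_sum_abs _ _).trans ((Finset.sum_le_sum fun r _ => h2 r).trans ?_)
  simp

/-- the count of the residues for a set of primes. -/
theorem card_prod (d : Finset ℕ) (bad : ℕ → ℕ → Prop) (ν : ℕ → ℕ) (hp : ∀ p ∈ d, p.Prime)
    (hb : ∀ p ∈ d, ∀ t, bad p (t + p) ↔ bad p t)
    (hν : ∀ p ∈ d, ((range p).filter (fun t => bad p t)).card = ν p) :
    (∀ t, (∀ p ∈ d, bad p (t + ∏ p ∈ d, p)) ↔ (∀ p ∈ d, bad p t)) ∧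
    ((range (∏ p ∈ d, p)).filter fun t => ∀ p ∈ d, bad p t).card = ∏ p ∈ d, ν p := by
  induction d using Finset.induction_on with
  | empty => simp
  | insert r d hr ih =>
    have hpr := hp r (Finset.mem_insert_self _ _)
    have hp' : ∀ p ∈ d, p.Prime := fun p h => hp p (Finset.mem_insert_of_mem h)
    have hb' : ∀ p ∈ d, ∀ t, bad p (t + p) ↔ bad p t := fun p h => hb p (Finset.mem_insert_of_mem h)
    have hν' : ∀ p ∈ d, ((range p).filter (fun t => bad p t)).card = ν p :=
      fun p h => hν p (Finset.mem_insert_of_mem h)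
    obtain ⟨i1, i2⟩ := ih hp' hb' hν'
    have hbr := hb r (Finset.mem_insert_self _ _)
    have hcop : Nat.Coprime r (∏ p ∈ d, p) := by
      refine Nat.Coprime.prod_right fun p hpd => (Nat.coprime_primes hpr (hp' p hpd)).2 ?_
      rintro rfl; exact hr hpd
    have hpos : 0 < ∏ p ∈ d, p := Finset.prod_pos fun p hpd => (hp' p hpd).pos
    constructor
    · intro t
      have mulper : ∀ {A : ℕ → Prop} {a : ℕ}, (∀ t, A (t + a) ↔ A t) → ∀ k t, A (t + k * a) ↔ A t := by
        intro A a hA k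
        induction k with
        | zero => intro t; simp
        | succ k ih => intro t; rw [Nat.succ_mul, ← add_assoc, hA, ih]
      rw [Finset.prod_insert hr]
      have h1 : bad r (t + r * ∏ p ∈ d, p) ↔ bad r t := by
        rw [mul_comm]; exact mulper (A := bad r) hbr _ t
      have h2 : (∀ p ∈ d, bad p (t + r * ∏ p ∈ d, p)) ↔ ∀ p ∈ d, bad p t :=
        mulper (A := fun t => ∀ p ∈ d, bad p t) i1 r t
      rw [Finset.forall_mem_insert, Finset.forall_mem_insert, h1, h2]
    · rw [Finset.prod_insert hr, Finset.prod_insert hr]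
      have h3 := card_crt (A := bad r) (B := fun t => ∀ p ∈ d, bad p t) hpr.pos hpos hcop hbr i1
      rw [hν r (Finset.mem_insert_self _ _), i2] at h3
      rw [← h3]
      congr 1
      ext t
      simp only [Finset.mem_filter, Finset.forall_mem_insert]

theorem gBRU : G_BRU := by
  intro P bad ν N b hp hb hν
  -- the indicator functions
  let χ : ℕ → ℕ → ℝ := fun t p => if bad p t then 1 else 0
  have hχ : ∀ t, ∀ p ∈ P, 0 ≤ χ t p ∧ χ t p ≤ 1 := by
    intro t p _
    simp only [χ]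
    split_ifs <;> norm_num
  let x : ℕ → ℝ := fun p => (ν p : ℝ) / p
  have hνle : ∀ p ∈ P, ν p ≤ p := by
    intro p hpP
    rw [← hν p hpP]
    exact (Finset.card_filter_le _ _).trans (by rw [Finset.card_range])
  have hx : ∀ p ∈ P, 0 ≤ x p ∧ x p ≤ 1 := by
    intro p hpP
    have h0 : (0 : ℝ) < p := by exact_mod_cast (hp p hpP).pos
    refine ⟨by positivity, ?_⟩
    rw [div_le_one h0]
    exact_mod_cast hνle p hpP
  have hν0 : ∀ p ∈ P, (0 : ℝ) ≤ (ν p : ℝ) := fun p _ => by positivity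
  -- the count
  have hS : (((range N).filter (fun t => ∀ p ∈ P, ¬ bad p t)).card : ℝ) =
      ∑ t ∈ range N, ∏ p ∈ P, (1 - χ t p) := by
    rw [Finset.card_filter]
    push_cast
    refine Finset.sum_congr rfl fun t _ => ?_
    by_cases h : ∀ p ∈ P, ¬ bad p t
    · rw [if_pos h]
      symm
      refine Finset.prod_eq_one fun p hpP => ?_
      simp [χ, h p hpP]
    · rw [if_neg h]
      push Not at h
      obtain ⟨p, hpP, hpb⟩ := h
      symm
      refine Finset.prod_eq_zero hpP ?_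
      simp [χ, hpb]
  -- the sums over t of es
  have hE : ∀ j, |∑ t ∈ range N, es (χ t) P j - N * es x P j| ≤ es (fun p => (ν p : ℝ)) P j := by
    intro j
    have e1 : ∑ t ∈ range N, es (χ t) P j =
        ∑ d ∈ P.powersetCard j, (((range N).filter (fun t => ∀ p ∈ d, bad p t)).card : ℝ) := by
      simp only [es]
      rw [Finset.sum_comm]
      refine Finset.sum_congr rfl fun d _ => ?_
      rw [Finset.card_filter]
      push_cast
      refine Finset.sum_congr rfl fun t _ => ?_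
      by_cases h : ∀ p ∈ d, bad p t
      · rw [if_pos h]
        refine Finset.prod_eq_one fun p hpP => ?_
        simp [χ, h p hpP]
      · rw [if_neg h]
        push Not at h
        obtain ⟨p, hpP, hpb⟩ := h
        refine Finset.prod_eq_zero hpP ?_
        simp [χ, hpb]
    rw [e1, es, es, Finset.mul_sum, ← Finset.sum_sub_distrib]
    refine (Finset.abs_sum_le_sum_abs _ _).trans (Finset.sum_le_sum fun d hd => ?_)
    have hdP := (Finset.mem_powersetCard.1 hd).1
    obtain ⟨c1, c2⟩ := card_prod d bad ν (fun p h => hp p (hdP h)) (fun p h => hb p (hdP h))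
      (fun p h => hν p (hdP h))
    have hpos : 0 < ∏ p ∈ d, p := Finset.prod_pos fun p hpd => (hp p (hdP hpd)).pos
    have h2 := card_per (A := fun t => ∀ p ∈ d, bad p t) hpos c1 N
    rw [c2] at h2
    push_cast at h2
    simp only [x]
    rw [Finset.prod_div_distrib]
    exact h2
  -- assembly
  set S : ℝ := ∑ t ∈ range N, ∏ p ∈ P, (1 - χ t p) with hSdef
  set T : ℝ := ∑ t ∈ range N, ∑ j ∈ range b, (-1 : ℝ) ^ j * es (χ t) P j with hT
  have s1 : |S - T| ≤ ∑ t ∈ range N, es (χ t) P b := by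
    rw [hSdef, hT, ← Finset.sum_sub_distrib]
    exact (Finset.abs_sum_le_sum_abs _ _).trans
      (Finset.sum_le_sum fun t _ => bonf_abs (χ t) P (hχ t) b)
  have s2 : ∑ t ∈ range N, es (χ t) P b ≤ N * es x P b + es (fun p => (ν p : ℝ)) P b := by
    have := (abs_le.1 (hE b)).2
    linarith
  have s3 : |T - N * ∑ j ∈ range b, (-1 : ℝ) ^ j * es x P j| ≤
      ∑ j ∈ range b, es (fun p => (ν p : ℝ)) P j := by
    have e1 : T - N * ∑ j ∈ range b, (-1 : ℝ) ^ j * es x P j =
        ∑ j ∈ range b, (-1 : ℝ) ^ j * (∑ t ∈ range N, es (χ t) P j - N * es x P j) := by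
      rw [hT, Finset.sum_comm, Finset.mul_sum, ← Finset.sum_sub_distrib]
      refine Finset.sum_congr rfl fun j _ => ?_
      rw [← Finset.mul_sum]; ring
    rw [e1]
    refine (Finset.abs_sum_le_sum_abs _ _).trans (Finset.sum_le_sum fun j _ => ?_)
    rw [abs_mul, abs_pow, abs_neg, abs_one, one_pow, one_mul]
    exact hE j
  have s4 := bonf_abs x P hx b
  have s5 : |(N : ℝ) * ∑ j ∈ range b, (-1 : ℝ) ^ j * es x P j - N * ∏ p ∈ P, (1 - x p)| ≤
      N * es x P b := by
    rw [← mul_sub, abs_mul, Nat.abs_cast, abs_sub_comm]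
    exact mul_le_mul_of_nonneg_left s4 (by positivity)
  have s6 : ∑ j ∈ range b, es (fun p => (ν p : ℝ)) P j + es (fun p => (ν p : ℝ)) P b ≤
      (1 + ∑ p ∈ P, (ν p : ℝ)) ^ b := by
    rw [← Finset.sum_range_succ]
    exact sum_es_le P hν0 b
  have s7 : (N : ℝ) * es x P b ≤ N * ((∑ p ∈ P, (ν p : ℝ) / p) ^ b / b.factorial) :=
    mul_le_mul_of_nonneg_left (es_le P (fun p h => (hx p h).1) b) (by positivity)
  rw [hS]
  have s8 : S - N * ∏ p ∈ P, (1 - (ν p : ℝ) / p) = (S - T) +
      ((T - N * ∑ j ∈ range b, (-1 : ℝ) ^ j * es x P j) +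
      (N * ∑ j ∈ range b, (-1 : ℝ) ^ j * es x P j - N * ∏ p ∈ P, (1 - x p))) := by
    simp only [x]; ring
  rw [s8]
  refine (abs_add_le _ _).trans ?_
  have s9 := abs_add_le (T - N * ∑ j ∈ range b, (-1 : ℝ) ^ j * es x P j)
    (N * ∑ j ∈ range b, (-1 : ℝ) ^ j * es x P j - N * ∏ p ∈ P, (1 - x p))
  linarith

end Pool.Agent.Helper10.TB
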